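import Mathlib

/-!
# MP_755cca_al: `SL(3,ℤ) ≠ UU⁻UU⁻`, so `L(A₂) ≥ 3`

`U n` and `Um n` are the upper and lower unitriangular subgroups of `SL(n,ℤ)`, as sets.
For `|d| ≥ 9` an element of the `SL(2,ℤ)` of the highest root lies in `UU⁻UU⁻` of `SL(3,ℤ)`
exactly when its `2 × 2` matrix lies in `UU⁻UU⁻` of `SL(2,ℤ)`.
-/

namespace Pool.Agent.Results.MP_755cca_al.SpecialLinearThree

open Matrix Pointwise

/-- The upper unitriangular matrices, `U(A_{n-1},ℤ)`. -/
def U (n : ℕ) : Set (SpecialLinearGroup (Fin n) ℤ) :=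
  {g | (∀ i, g.1 i i = 1) ∧ ∀ i j, j < i → g.1 i j = 0}

/-- The lower unitriangular matrices, `U⁻(A_{n-1},ℤ)`. -/
def Um (n : ℕ) : Set (SpecialLinearGroup (Fin n) ℤ) :=
  {g | (∀ i, g.1 i i = 1) ∧ ∀ i j, i < j → g.1 i j = 0}

/-- The element `(a b; c d)` of `SL(2,ℤ)`. -/
def two (a b c d : ℤ) (h : a * d - b * c = 1) : SpecialLinearGroup (Fin 2) ℤ :=
  ⟨!![a, b; c, d], by rw [Matrix.det_fin_two_of]; exact h⟩

/-- The element `(a 0 b; 0 1 0; c 0 d)` of `SL(3,ℤ)`. -/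
def three (a b c d : ℤ) (h : a * d - b * c = 1) : SpecialLinearGroup (Fin 3) ℤ :=
  ⟨!![a, 0, b; 0, 1, 0; c, 0, d], by simp [Matrix.det_fin_three]; linarith⟩

/-! ### The arithmetic core -/

lemma core_dvd_aux {d x y w v z z' : ℤ} (hy : y ≠ 0)
    (hwv : w * v + (1 + d * (x * y)) = d) (hz : z = y * w)
    (hzz : z * z' = d * (x * y)) : w ∣ d - 1 := by
  have h1 : w * z' = d * x := by
    have : y * (w * z') = y * (d * x) := by
      have := hzz
      rw [hz] at this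
      linarith
    exact mul_left_cancel₀ hy this
  have hcop : IsCoprime w d := ⟨-v, 1 - x * y, by linarith⟩
  have h2 : w ∣ x := by
    have : w ∣ d * x := ⟨z', h1.symm⟩
    exact hcop.dvd_of_dvd_mul_left this
  obtain ⟨k, hk⟩ := h2
  exact ⟨v + d * k * y, by rw [hk] at hwv; linarith⟩

lemma abs_shift {t p D s : ℤ} (hp : p ≠ 0) (h : t = s + p * D) : |D| - |s| ≤ |t| := by
  have h1 : |D| ≤ |p * D| := by
    rw [abs_mul]
    have : 1 ≤ |p| := Int.one_le_abs hp
    nlinarith [abs_nonneg D]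
  have h2 : |p * D| ≤ |t| + |s| := by
    have : p * D = t - s := by linarith
    rw [this]
    exact abs_sub t s
  linarith

lemma core_one {d x y w v z z' p q D : ℤ} (hd : 9 ≤ |d|) (hxy : x * y ≠ 0)
    (hD : D = 1 + d * (x * y)) (hwv : w * v + D = d)
    (hz : z = y * w - p * D) (hz' : z' = x * v - q * D) (hzz : z * z' = D - 1)
    (hp : p ≠ 0) (h1 : |z| = 1) : v ∣ d - 1 := by
  have hDabs : |d| ≤ |D| + 1 := by
    have h3 : |d| ≤ |D - 1| := by
      have : D - 1 = d * (x * y) := by rw [hD]; ring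
      rw [this, abs_mul]
      have : 1 ≤ |x * y| := Int.one_le_abs hxy
      nlinarith [abs_nonneg d]
    have h4 : |D - 1| ≤ |D| + |1| := abs_sub D 1
    simp at h4
    linarith
  have hzsq : z * z = 1 := by
    have := abs_mul_abs_self z
    rw [h1] at this
    linarith
  -- z' = z (D - 1)
  have hz'' : z' = z * (D - 1) := by
    calc z' = (z * z) * z' := by rw [hzsq]; ring
      _ = z * (z * z') := by ring
      _ = z * (D - 1) := by rw [hzz]
  have hxv : x * v = -z + (z + q) * D := by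
    have : x * v = z' + q * D := by linarith
    rw [this, hz'']; ring
  by_cases hq : z + q = 0
  · rw [hq] at hxv
    have : v ∣ z := ⟨-x, by linarith⟩
    have h5 : v ∣ 1 := by
      have : v ∣ z * z := Dvd.dvd.mul_right this z
      rwa [hzsq] at this
    exact h5.trans (one_dvd _)
  · exfalso
    have hβ : |D| - 1 ≤ |x * v| := by
      have := abs_shift hq hxv
      rw [abs_neg, h1] at this
      exact this
    have hα : |D| - 1 ≤ |y * w| := by
      have := abs_shift (t := y * w) (p := p) (D := D) (s := z) hp (by linarith)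
      rw [h1] at this
      exact this
    have hprod : |d| * (|y * w| * |x * v|) ≤ (|D| + 1) * (|D| + |d|) := by
      have e1 : |d| * (|y * w| * |x * v|) = |D - 1| * |d - D| := by
        rw [← abs_mul, ← abs_mul, ← abs_mul]
        congr 1
        have : d - D = w * v := by linarith
        rw [this, hD]; ring
      rw [e1]
      have e2 : |D - 1| ≤ |D| + 1 := by
        have := abs_sub D 1; simpa using this
      have e3 : |d - D| ≤ |D| + |d| := by
        have := abs_sub d D; linarith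
      exact mul_le_mul e2 e3 (abs_nonneg _) (by positivity)
    have hΔ : 8 ≤ |D| := by linarith
    have h6 : (|D| - 1) * (|D| - 1) ≤ |y * w| * |x * v| :=
      mul_le_mul hα hβ (by linarith) (abs_nonneg _)
    have h7 : |d| * ((|D| - 1) * (|D| - 1)) ≤ |d| * (|y * w| * |x * v|) :=
      mul_le_mul_of_nonneg_left h6 (abs_nonneg _)
    -- δ (Δ-1)^2 ≤ (Δ+1)(Δ+δ)
    have h8 : |d| * ((|D| - 1) * (|D| - 1)) ≤ (|D| + 1) * (|D| + |d|) := h7.trans hprod
    generalize |d| = δ at *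
    generalize |D| = Δ at *
    have h9 : δ * (Δ * (Δ - 3)) ≤ Δ * (Δ + 1) := by nlinarith
    have h10 : Δ * (δ * (Δ - 3)) ≤ Δ * (Δ + 1) := by linarith
    have h11 : δ * (Δ - 3) ≤ Δ + 1 := le_of_mul_le_mul_left h10 (by linarith)
    nlinarith

/-- The arithmetic core. -/
lemma core {d x y w v z z' p q D : ℤ} (hd : 9 ≤ |d|)
    (hD : D = 1 + d * (x * y)) (hwv : w * v + D = d)
    (hz : z = y * w - p * D) (hz' : z' = x * v - q * D) (hzz : z * z' = D - 1) :
    w ∣ d - 1 ∨ v ∣ d - 1 := by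
  by_cases hxy : x * y = 0
  · left
    rw [hxy] at hD
    exact ⟨v, by linarith⟩
  have hx : x ≠ 0 := left_ne_zero_of_mul hxy
  have hy : y ≠ 0 := right_ne_zero_of_mul hxy
  have hzz' : z * z' = d * (x * y) := by rw [hzz, hD]; ring
  by_cases hp : p = 0
  · left
    exact core_dvd_aux (z' := z') hy (by rw [← hD]; exact hwv) (by rw [hz, hp]; ring) hzz'
  by_cases hq : q = 0
  · right
    refine core_dvd_aux (x := y) (y := x) (w := v) (v := w) (z := z') (z' := z) hx ?_ ?_ ?_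
    · rw [mul_comm y x, mul_comm v w, ← hD]; exact hwv
    · rw [hz', hq]; ring
    · rw [mul_comm z' z, mul_comm y x]; exact hzz'
  have hzne : z ≠ 0 := by
    intro h
    rw [h, zero_mul] at hzz'
    have hd0 : d ≠ 0 := by
      intro h0; rw [h0] at hd; simp at hd
    exact (mul_ne_zero hd0 hxy) hzz'.symm
  have hzne' : z' ≠ 0 := by
    intro h
    rw [h, mul_zero] at hzz'
    have hd0 : d ≠ 0 := by
      intro h0; rw [h0] at hd; simp at hd
    exact (mul_ne_zero hd0 hxy) hzz'.symm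
  by_cases h1 : |z| = 1
  · right
    exact core_one hd hxy hD hwv hz hz' hzz hp h1
  by_cases h2 : |z'| = 1
  · left
    refine core_one (x := y) (y := x) (w := v) (v := w) (z := z') (z' := z) (p := q) (q := p)
      (D := D) hd ?_ ?_ ?_ hz' hz ?_ hq h2
    · rw [mul_comm]; exact hxy
    · rw [mul_comm y x]; exact hD
    · rw [mul_comm v w]; exact hwv
    · rw [mul_comm]; exact hzz
  exfalso
  have hs : 2 ≤ |z| := by
    have := Int.one_le_abs hzne
    omega
  have ht : 2 ≤ |z'| := by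
    have := Int.one_le_abs hzne'
    omega
  have hDabs : |d| ≤ |D| + 1 := by
    have h3 : |d| ≤ |D - 1| := by
      have : D - 1 = d * (x * y) := by rw [hD]; ring
      rw [this, abs_mul]
      have : 1 ≤ |x * y| := Int.one_le_abs hxy
      nlinarith [abs_nonneg d]
    have h4 : |D - 1| ≤ |D| + |1| := abs_sub D 1
    simp at h4
    linarith
  have hΔ : 8 ≤ |D| := by linarith
  have hst : |z| * |z'| ≤ |D| + 1 := by
    rw [← abs_mul, hzz]
    have := abs_sub D 1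
    simpa using this
  have hα : |D| - |z| ≤ |y * w| := abs_shift (t := y * w) (s := z) hp (by linarith)
  have hβ : |D| - |z'| ≤ |x * v| := abs_shift (t := x * v) (s := z') hq (by linarith)
  have hprod : |d| * (|y * w| * |x * v|) ≤ (|z| * |z'|) * (|D| + |d|) := by
    have e1 : |d| * (|y * w| * |x * v|) = (|z| * |z'|) * |d - D| := by
      rw [← abs_mul, ← abs_mul, ← abs_mul, ← abs_mul]
      congr 1
      have : d - D = w * v := by linarith
      rw [this, hzz, hD]; ring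
    rw [e1]
    have e3 : |d - D| ≤ |D| + |d| := by
      have := abs_sub d D; linarith
    exact mul_le_mul_of_nonneg_left e3 (by positivity)
  generalize |d| = δ at *
  generalize |D| = Δ at *
  generalize |z| = s at *
  generalize |z'| = t at *
  have hsum : 2 * (s + t) ≤ s * t + 4 := by nlinarith
  have hsD : s ≤ Δ := by nlinarith
  have htD : t ≤ Δ := by nlinarith
  have h6 : (Δ - s) * (Δ - t) ≤ |y * w| * |x * v| :=
    mul_le_mul hα hβ (by linarith) (abs_nonneg _)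
  have h7 : δ * ((Δ - s) * (Δ - t)) ≤ δ * (|y * w| * |x * v|) :=
    mul_le_mul_of_nonneg_left h6 (by linarith)
  have h8 : δ * ((Δ - s) * (Δ - t)) ≤ (s * t) * (Δ + δ) := h7.trans hprod
  have h9 : Δ * (δ * (Δ - s - t)) ≤ Δ * (s * t) := by nlinarith
  have h10 : δ * (Δ - s - t) ≤ s * t := le_of_mul_le_mul_left h9 (by linarith)
  have h11 : Δ - 5 ≤ 2 * (Δ - s - t) := by linarith
  have h12 : δ * (Δ - 5) ≤ 2 * (Δ + 1) := by nlinarith
  nlinarith

/-! ### Matrices -/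

lemma mem_U_three {g : SpecialLinearGroup (Fin 3) ℤ} (h : g ∈ U 3) :
    ∃ p x y : ℤ, g.1 = !![1, p, x; 0, 1, y; 0, 0, 1] := by
  refine ⟨g.1 0 1, g.1 0 2, g.1 1 2, ?_⟩
  obtain ⟨h1, h2⟩ := h
  ext i j
  fin_cases i <;> fin_cases j <;> simp [h1, h2]

lemma mem_Um_three {g : SpecialLinearGroup (Fin 3) ℤ} (h : g ∈ Um 3) :
    ∃ q x y : ℤ, g.1 = !![1, 0, 0; q, 1, 0; x, y, 1] := by
  refine ⟨g.1 1 0, g.1 2 0, g.1 2 1, ?_⟩
  obtain ⟨h1, h2⟩ := h
  ext i j
  fin_cases i <;> fin_cases j <;> simp [h1, h2]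

lemma mem_U_two {g : SpecialLinearGroup (Fin 2) ℤ} (h : g ∈ U 2) :
    ∃ p : ℤ, g.1 = !![1, p; 0, 1] := by
  refine ⟨g.1 0 1, ?_⟩
  obtain ⟨h1, h2⟩ := h
  ext i j
  fin_cases i <;> fin_cases j <;> simp [h1, h2]

lemma mem_Um_two {g : SpecialLinearGroup (Fin 2) ℤ} (h : g ∈ Um 2) :
    ∃ q : ℤ, g.1 = !![1, 0; q, 1] := by
  refine ⟨g.1 1 0, ?_⟩
  obtain ⟨h1, h2⟩ := h
  ext i j
  fin_cases i <;> fin_cases j <;> simp [h1, h2]

/-- From a factorisation in `SL(3,ℤ)` to the divisor condition. -/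
lemma three_imp {a b c d : ℤ} (h : a * d - b * c = 1) (hd : 9 ≤ |d|)
    (hg : three a b c d h ∈ (U 3 * Um 3) ^ 2) : ∃ e, e ∣ d - 1 ∧ e ≡ b [ZMOD d] := by
  rw [pow_two] at hg
  obtain ⟨_, ⟨u1, hu1, v1, hv1, rfl⟩, _, ⟨u2, hu2, v2, hv2, rfl⟩, hg⟩ := hg
  obtain ⟨p, x1, x2, e1⟩ := mem_U_three hu1
  obtain ⟨f1, f2, f3, e2⟩ := mem_Um_three hv1
  obtain ⟨g1, g2, g3, e3⟩ := mem_U_three hu2
  obtain ⟨q, y1, y2, e4⟩ := mem_Um_three hv2
  have hG : (u1.1 * v1.1) * (u2.1 * v2.1) = !![a, 0, b; 0, 1, 0; c, 0, d] := by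
    have := congrArg Subtype.val hg
    exact this
  rw [e1, e2, e3, e4] at hG
  have key : !![1, -p, p * x2 - x1; 0, 1, -x2; 0, 0, 1] * !![a, 0, b; 0, 1, 0; c, 0, d] *
      !![1, 0, 0; -q, 1, 0; q * y2 - y1, -y2, 1]
      = !![1, 0, 0; f1, 1, 0; f2, f3, 1] * !![1, g1, g2; 0, 1, g3; 0, 0, 1] := by
    rw [← hG]
    have i1 : !![1, -p, p * x2 - x1; 0, 1, -x2; 0, 0, 1] * !![1, p, x1; 0, 1, x2; 0, 0, 1]
        = (1 : Matrix (Fin 3) (Fin 3) ℤ) := by
      ext i j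
      fin_cases i <;> fin_cases j <;> simp [Matrix.mul_apply, Fin.sum_univ_three] <;> ring
    have i2 : !![1, 0, 0; q, 1, 0; y1, y2, 1] * !![1, 0, 0; -q, 1, 0; q * y2 - y1, -y2, 1]
        = (1 : Matrix (Fin 3) (Fin 3) ℤ) := by
      ext i j
      fin_cases i <;> fin_cases j <;> simp [Matrix.mul_apply, Fin.sum_univ_three] <;> ring
    calc _ = (!![1, -p, p * x2 - x1; 0, 1, -x2; 0, 0, 1] * !![1, p, x1; 0, 1, x2; 0, 0, 1]) *
        (!![1, 0, 0; f1, 1, 0; f2, f3, 1] * !![1, g1, g2; 0, 1, g3; 0, 0, 1]) *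
        (!![1, 0, 0; q, 1, 0; y1, y2, 1] * !![1, 0, 0; -q, 1, 0; q * y2 - y1, -y2, 1]) := by
          simp only [Matrix.mul_assoc]
      _ = _ := by rw [i1, i2, Matrix.one_mul, Matrix.mul_one]
  have k00 := congrFun (congrFun key 0) 0
  have k01 := congrFun (congrFun key 0) 1
  have k10 := congrFun (congrFun key 1) 0
  have k11 := congrFun (congrFun key 1) 1
  simp [Matrix.mul_apply, Fin.sum_univ_three] at k00 k01 k10 k11
  set w : ℤ := d * x1 - b with hw
  set v : ℤ := d * y1 - c with hv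
  set D : ℤ := 1 + d * (x2 * y2) with hD
  have hz : g1 = y2 * w - p * D := by rw [← k01, hw, hD]; ring
  have hz' : f1 = x2 * v - q * D := by rw [← k10, hv, hD]; ring
  have hzz : g1 * f1 = D - 1 := by
    have : D = f1 * g1 + 1 := by rw [← k11, hD]; ring
    rw [this]; ring
  have hwv : w * v + D = d := by
    have hA : a - b * y1 - c * x1 + d * x1 * y1 - p * (x2 * v) - q * (y2 * w) + p * q * D = 1 := by
      rw [← k00, hw, hv, hD]; ring
    have hA0 : D * (a - b * y1 - c * x1 + d * x1 * y1) = 1 + x2 * y2 * (w * v) := by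
      have e5 := hzz
      rw [hz, hz'] at e5
      linear_combination D * hA - e5
    have e6 : d * (a - b * y1 - c * x1 + d * x1 * y1) = w * v + 1 := by
      rw [hw, hv]; linear_combination h
    have e7 : D * (w * v + 1) = d + (D - 1) * (w * v) := by
      rw [← e6]
      have : D * (d * (a - b * y1 - c * x1 + d * x1 * y1))
        = d * (D * (a - b * y1 - c * x1 + d * x1 * y1)) := by ring
      rw [this, hA0, hD]; ring
    linarith
  rcases core (x := x2) (y := y2) (w := w) (v := v) (z := g1) (z' := f1) (p := p) (q := q)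
    hd hD hwv hz hz' hzz with hh | hh
  · refine ⟨-w, (neg_dvd).2 hh, ?_⟩
    rw [Int.modEq_iff_dvd]
    exact ⟨x1, by rw [hw]; ring⟩
  · obtain ⟨u, hu⟩ := hh
    refine ⟨-u, (neg_dvd).2 ⟨v, by rw [hu]; ring⟩, ?_⟩
    rw [Int.modEq_iff_dvd]
    -- b + u = d x1 - w + u, and d ∣ u - w
    have h1 : d ∣ v * (u - w) := by
      refine ⟨x2 * y2, ?_⟩
      have : v * (u - w) = (d - 1) - (d - D) := by rw [hu]; linarith
      rw [this, hD]; ring
    have hcop : IsCoprime d v := by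
      refine ⟨1 - x2 * y2, -w, ?_⟩
      rw [hD] at hwv
      linarith
    obtain ⟨r, hr⟩ := hcop.dvd_of_dvd_mul_left h1
    exact ⟨x1 + r, by rw [mul_add, ← hr, hw]; ring⟩

/-- From a factorisation in `SL(2,ℤ)` to the divisor condition. -/
lemma two_imp {a b c d : ℤ} (h : a * d - b * c = 1)
    (hg : two a b c d h ∈ (U 2 * Um 2) ^ 2) : ∃ e, e ∣ d - 1 ∧ e ≡ b [ZMOD d] := by
  rw [pow_two] at hg
  obtain ⟨_, ⟨u1, hu1, v1, hv1, rfl⟩, _, ⟨u2, hu2, v2, hv2, rfl⟩, hg⟩ := hg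
  obtain ⟨p, e1⟩ := mem_U_two hu1
  obtain ⟨f1, e2⟩ := mem_Um_two hv1
  obtain ⟨g1, e3⟩ := mem_U_two hu2
  obtain ⟨q, e4⟩ := mem_Um_two hv2
  have hG : (u1.1 * v1.1) * (u2.1 * v2.1) = !![a, b; c, d] := by
    have := congrArg Subtype.val hg
    exact this
  rw [e1, e2, e3, e4] at hG
  have k01 := congrFun (congrFun hG 0) 1
  have k11 := congrFun (congrFun hG 1) 1
  simp [Matrix.mul_apply, Fin.sum_univ_two] at k01 k11
  refine ⟨g1, ⟨f1, ?_⟩, ?_⟩
  · linear_combination -k11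
  · rw [Int.modEq_iff_dvd]
    exact ⟨p, by linear_combination -k01 + p * k11⟩

/-- An upper elementary matrix of `SL(2,ℤ)`. -/
def up2 (t : ℤ) : SpecialLinearGroup (Fin 2) ℤ := ⟨!![1, t; 0, 1], by simp⟩
/-- A lower elementary matrix of `SL(2,ℤ)`. -/
def lo2 (t : ℤ) : SpecialLinearGroup (Fin 2) ℤ := ⟨!![1, 0; t, 1], by simp⟩
/-- An upper elementary matrix of `SL(3,ℤ)`, in the corner. -/
def up3 (t : ℤ) : SpecialLinearGroup (Fin 3) ℤ :=
  ⟨!![1, 0, t; 0, 1, 0; 0, 0, 1], by simp [Matrix.det_fin_three]⟩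
/-- A lower elementary matrix of `SL(3,ℤ)`, in the corner. -/
def lo3 (t : ℤ) : SpecialLinearGroup (Fin 3) ℤ :=
  ⟨!![1, 0, 0; 0, 1, 0; t, 0, 1], by simp [Matrix.det_fin_three]⟩

lemma up2_mem (t : ℤ) : up2 t ∈ U 2 := by
  refine ⟨?_, ?_⟩
  · intro i; fin_cases i <;> simp [up2]
  · intro i j hij; fin_cases i <;> fin_cases j <;> simp [up2] at hij ⊢

lemma lo2_mem (t : ℤ) : lo2 t ∈ Um 2 := by
  refine ⟨?_, ?_⟩
  · intro i; fin_cases i <;> simp [lo2]
  · intro i j hij; fin_cases i <;> fin_cases j <;> simp [lo2] at hij ⊢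

lemma up3_mem (t : ℤ) : up3 t ∈ U 3 := by
  refine ⟨?_, ?_⟩
  · intro i; fin_cases i <;> simp [up3]
  · intro i j hij; fin_cases i <;> fin_cases j <;> simp [up3] at hij ⊢

lemma lo3_mem (t : ℤ) : lo3 t ∈ Um 3 := by
  refine ⟨?_, ?_⟩
  · intro i; fin_cases i <;> simp [lo3]
  · intro i j hij; fin_cases i <;> fin_cases j <;> simp [lo3] at hij ⊢

lemma imp_two {a b c d : ℤ} (h : a * d - b * c = 1)
    (he : ∃ e, e ∣ d - 1 ∧ e ≡ b [ZMOD d]) : two a b c d h ∈ (U 2 * Um 2) ^ 2 := by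
  obtain ⟨e, ⟨f, hf⟩, hb⟩ := he
  rw [Int.modEq_iff_dvd] at hb
  obtain ⟨j, hj⟩ := hb
  obtain rfl : d = e * f + 1 := by linarith
  obtain rfl : b = e + (e * f + 1) * j := by linarith
  rw [pow_two]
  refine ⟨_, ⟨up2 j, up2_mem j, lo2 f, lo2_mem f, rfl⟩, _,
    ⟨up2 e, up2_mem e, lo2 (c - (a - j * c) * f), lo2_mem _, rfl⟩, ?_⟩
  apply Subtype.ext
  show (!![1, j; 0, 1] * !![1, 0; f, 1]) * (!![1, e; 0, 1] * !![1, 0; (c - (a - j * c) * f), 1])
    = !![a, e + (e * f + 1) * j; c, e * f + 1]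
  ext i k
  fin_cases i <;> fin_cases k <;> simp [Matrix.mul_apply, Fin.sum_univ_two]
  · linear_combination (-(1 + j * f)) * h
  · ring
  · linear_combination (-f) * h
  · ring

lemma imp_three {a b c d : ℤ} (h : a * d - b * c = 1)
    (he : ∃ e, e ∣ d - 1 ∧ e ≡ b [ZMOD d]) : three a b c d h ∈ (U 3 * Um 3) ^ 2 := by
  obtain ⟨e, ⟨f, hf⟩, hb⟩ := he
  rw [Int.modEq_iff_dvd] at hb
  obtain ⟨j, hj⟩ := hb
  obtain rfl : d = e * f + 1 := by linarith
  obtain rfl : b = e + (e * f + 1) * j := by linarith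
  rw [pow_two]
  refine ⟨_, ⟨up3 j, up3_mem j, lo3 f, lo3_mem f, rfl⟩, _,
    ⟨up3 e, up3_mem e, lo3 (c - (a - j * c) * f), lo3_mem _, rfl⟩, ?_⟩
  apply Subtype.ext
  show (!![1, 0, j; 0, 1, 0; 0, 0, 1] * !![1, 0, 0; 0, 1, 0; f, 0, 1]) *
    (!![1, 0, e; 0, 1, 0; 0, 0, 1] * !![1, 0, 0; 0, 1, 0; (c - (a - j * c) * f), 0, 1])
    = !![a, 0, e + (e * f + 1) * j; 0, 1, 0; c, 0, e * f + 1]
  ext i k
  fin_cases i <;> fin_cases k <;> simp [Matrix.mul_apply, Fin.sum_univ_three]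
  · linear_combination (-(1 + j * f)) * h
  · ring
  · linear_combination (-f) * h
  · ring

/-- No divisor of `4t+2` is congruent to `4` modulo `4t+3` when `t ≥ 2`. -/
lemma no_divisor {t : ℤ} (ht : 2 ≤ t) : ¬ ∃ e, e ∣ (4 * t + 3) - 1 ∧ e ≡ 4 [ZMOD 4 * t + 3] := by
  rintro ⟨e, he, hb⟩
  rw [Int.modEq_iff_dvd] at hb
  obtain ⟨s, hs⟩ := hb
  have h1 : e ≤ 4 * t + 2 := by
    have := Int.le_of_dvd (by linarith) he
    linarith
  have h2 : -e ≤ 4 * t + 2 := by
    have := Int.le_of_dvd (by linarith) ((neg_dvd).2 he)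
    linarith
  have hs0 : 0 ≤ s := by
    by_contra hneg
    have : s ≤ -1 := by omega
    nlinarith
  have hs1 : s ≤ 1 := by
    by_contra hneg
    have : 2 ≤ s := by omega
    nlinarith
  have : s = 0 ∨ s = 1 := by omega
  rcases this with rfl | rfl
  · have : e = 4 := by linarith
    subst this
    omega
  · have he1 : e = 1 - 4 * t := by linarith
    subst he1
    have h3 : (4 * t - 1) ∣ 3 := by
      obtain ⟨r, hr⟩ := he
      exact ⟨-r - 1, by linear_combination hr⟩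
    have := Int.le_of_dvd (by norm_num) h3
    linarith

/-- **Theorem.** (1) For `ad - bc = 1` and `|d| ≥ 9` the following are equivalent: the matrix
`(a 0 b; 0 1 0; c 0 d)` is in `UU⁻UU⁻` of `SL(3,ℤ)`; the matrix `(a b; c d)` is in `UU⁻UU⁻` of
`SL(2,ℤ)`; some divisor `e` of `d - 1` is congruent to `b` modulo `d`.
(2) If `SL(3,ℤ) = (UU⁻)^L` then `L ≥ 3`. -/
theorem result :
    (∀ (a b c d : ℤ) (h : a * d - b * c = 1), 9 ≤ |d| →
      (three a b c d h ∈ (U 3 * Um 3) ^ 2 ↔ two a b c d h ∈ (U 2 * Um 2) ^ 2) ∧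
      (three a b c d h ∈ (U 3 * Um 3) ^ 2 ↔ ∃ e, e ∣ d - 1 ∧ e ≡ b [ZMOD d])) ∧
    (∀ L : ℕ, (U 3 * Um 3) ^ L = Set.univ → 3 ≤ L) := by
  refine ⟨?_, ?_⟩
  · intro a b c d h hd
    exact ⟨⟨fun hg => imp_two h (three_imp h hd hg), fun hg => imp_three h (two_imp h hg)⟩,
      ⟨three_imp h hd, imp_three h⟩⟩
  · intro L hL
    by_contra hlt
    have hle : L ≤ 2 := by omega
    have h1 : (1 : SpecialLinearGroup (Fin 3) ℤ) ∈ U 3 * Um 3 := by
      refine ⟨1, ⟨?_, ?_⟩, 1, ⟨?_, ?_⟩, mul_one 1⟩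
      · intro i; simp
      · intro i j hij; exact Matrix.one_apply_ne (ne_of_gt hij)
      · intro i; simp
      · intro i j hij; exact Matrix.one_apply_ne (ne_of_lt hij)
    have hsub : (U 3 * Um 3) ^ L ⊆ (U 3 * Um 3) ^ 2 := Set.pow_subset_pow_right h1 hle
    rw [hL] at hsub
    have hg : three 3 4 (3 * 2 + 2) (4 * 2 + 3) (by norm_num) ∈ (U 3 * Um 3) ^ 2 :=
      hsub (Set.mem_univ _)
    exact no_divisor (t := 2) le_rfl (three_imp _ (by norm_num) hg)

end Pool.Agent.Results.MP_755cca_al.SpecialLinearThree
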